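import Pool.Agent.Lib.MP_26b77b_gt.Cases

set_option autoImplicit false

namespace Pool.Agent.Lib.MP_26b77b_gt

open scoped RealInnerProductSpace Pointwise
open Metric Set

namespace Data

variable {E : Type*} [NormedAddCommGroup E] [InnerProductSpace ℝ E] (D : Data E)

/-- the core: closed convex hull of the centres -/
def core : Set E := closure (convexHull ℝ (range D.Q))

/-- the convex body -/
def body : Set E := D.core + closedBall (0 : E) rad

lemma convex_core : Convex ℝ D.core := (convex_convexHull ℝ _).closure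

lemma convex_body : Convex ℝ D.body := D.convex_core.add (convex_closedBall _ _)

lemma Q_mem (l : ℕ) : D.Q l ∈ D.core :=
  subset_closure (subset_convexHull ℝ _ (mem_range_self l))

lemma core_subset : D.core ⊆ closedBall (0 : E) 2 := by
  refine closure_minimal (convexHull_min ?_ (convex_closedBall _ _)) isClosed_closedBall
  rintro _ ⟨l, rfl⟩
  have h1 := D.norm_Q_sub l (v := 0) (by simpa using rad_pos.le)
  rw [add_zero] at h1
  rw [mem_closedBall_zero_iff]
  have h2 := norm_add_le (D.Q l - D.V (l + 2)) (D.V (l + 2))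
  rw [sub_add_cancel] at h2
  linarith [D.nV (l + 2)]

lemma isCompact_core [FiniteDimensional ℝ E] : IsCompact D.core :=
  (isCompact_closedBall (0 : E) 2).of_isClosed_subset isClosed_closure D.core_subset

lemma isCompact_body [FiniteDimensional ℝ E] : IsCompact D.body :=
  D.isCompact_core.add (isCompact_closedBall _ _)

lemma ball_subset_interior {q : E} (hq : q ∈ D.core) : ball q rad ⊆ interior D.body := by
  refine interior_maximal ?_ isOpen_ball
  intro z hz
  refine ⟨q, hq, z - q, ?_, by simp⟩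
  rw [mem_closedBall_zero_iff]
  exact (mem_ball_iff_norm.mp hz).le

lemma interior_nonempty : (interior D.body).Nonempty :=
  ⟨D.Q 0, D.ball_subset_interior (D.Q_mem 0) (mem_ball_self rad_pos)⟩

/-- unique supporting line at each boundary point -/
lemma smooth [FiniteDimensional ℝ E] {p : E} (hp : p ∈ frontier D.body) :
    ∃! u : E, ‖u‖ = 1 ∧ ∀ y ∈ D.body, ⟪u, y - p⟫ ≤ 0 := by
  have hcl : IsClosed D.body := D.isCompact_body.isClosed
  have hpK : p ∈ D.body := hcl.frontier_subset hp
  have hpi : p ∉ interior D.body := hp.2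
  obtain ⟨q, hq, hqm⟩ := exists_norm_eq_iInf_of_complete_convex ⟨_, D.Q_mem 0⟩
    D.isCompact_core.isComplete D.convex_core p
  have hproj := (norm_eq_iInf_iff_real_inner_le_zero D.convex_core hq).mp hqm
  have hle : ‖p - q‖ ≤ rad := by
    obtain ⟨q', hq', w, hw, rfl⟩ := hpK
    rw [hqm]
    refine (ciInf_le ⟨0, ?_⟩ (⟨q', hq'⟩ : D.core)).trans ?_
    · rintro _ ⟨x, rfl⟩; exact norm_nonneg _
    · simpa using hw
  have hge : rad ≤ ‖p - q‖ := by
    by_contra hc
    push Not at hc
    exact hpi (D.ball_subset_interior hq (mem_ball_iff_norm.mpr hc))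
  have heq : ‖p - q‖ = rad := le_antisymm hle hge
  have hne : p - q ≠ 0 := by
    intro h0; rw [h0, norm_zero] at heq; exact rad_pos.ne heq
  have hu : ‖uv (p - q)‖ = 1 := norm_uv hne
  have hpq : p - q = rad • uv (p - q) := by rw [← heq, smul_uv]
  refine ⟨uv (p - q), ⟨hu, ?_⟩, ?_⟩
  · rintro _ ⟨q', hq', w, hw, rfl⟩
    have e : q' + w - p = (q' - q) + w - (p - q) := by abel
    change ⟪uv (p - q), q' + w - p⟫ ≤ 0
    rw [e, inner_sub_right, inner_add_right, inner_uv_self, heq]
    have h1 : ⟪uv (p - q), q' - q⟫ ≤ 0 := by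
      have h2 := hproj q' hq'
      rw [hpq, real_inner_smul_left] at h2
      by_contra hc
      push Not at hc
      nlinarith [mul_pos rad_pos hc]
    have h3 := real_inner_le_norm (uv (p - q)) w
    rw [hu, one_mul] at h3
    have h4 := mem_closedBall_zero_iff.mp hw
    linarith
  · rintro u' ⟨hu', hs⟩
    have hm : q + rad • u' ∈ D.body := by
      refine ⟨q, hq, rad • u', ?_, rfl⟩
      rw [mem_closedBall_zero_iff, norm_smul_unit hu' rad_pos]
    have h1 := hs _ hm
    have e : q + rad • u' - p = rad • u' - (p - q) := by abel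
    rw [e, hpq, inner_sub_right, real_inner_smul_right, real_inner_smul_right,
      real_inner_self_eq_norm_sq, hu'] at h1
    have h2 : 1 ≤ ⟪u', uv (p - q)⟫ := by
      by_contra hc
      push Not at hc
      nlinarith [rad_pos]
    have h3 : ⟪u', uv (p - q)⟫ ≤ 1 := by
      have := real_inner_le_norm u' (uv (p - q))
      rw [hu, hu'] at this; linarith
    exact (inner_eq_one_iff_of_norm_eq_one (𝕜 := ℝ) hu' hu).mp (le_antisymm h3 h2)

lemma convexOn_norm_sub (c : E) : ConvexOn ℝ univ (fun z : E => ‖z - c‖) := by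
  have := (convexOn_univ_norm (E := E)).translate_left (-c)
  simpa [Function.comp_def, sub_eq_add_neg] using this

lemma convexOn_f (j : ℕ) : ConvexOn ℝ univ (D.f j) :=
  (convexOn_norm_sub (D.P j)).add (convexOn_norm_sub (D.P (j + 1)))

lemma body_bound (j : ℕ) {Z : E} (hZ : Z ∈ D.body) :
    D.f j Z + tau j / 100 * ‖Z - D.P (j + 2)‖ ^ 2 ≤ D.f j (D.P (j + 2)) := by
  obtain ⟨q, hq, v, hv, rfl⟩ := hZ
  have hv' := mem_closedBall_zero_iff.mp hv
  let ψ : E → ℝ := fun z => D.f j (z + v) + tau j / 100 * ‖z + v - D.P (j + 2)‖ ^ 2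
  have hψ : ConvexOn ℝ univ ψ := by
    have h1 : ConvexOn ℝ univ (fun z : E => ‖z - (D.P j - v)‖) := convexOn_norm_sub _
    have h2 : ConvexOn ℝ univ (fun z : E => ‖z - (D.P (j + 1) - v)‖) := convexOn_norm_sub _
    have h3 : ConvexOn ℝ univ (fun z : E => ‖z - (D.P (j + 2) - v)‖) := convexOn_norm_sub _
    have h4 := (h3.pow (fun _ _ => norm_nonneg _) 2).smul
      (show 0 ≤ tau j / 100 by have := tau_pos j; positivity)
    have h5 := (h1.add h2).add h4
    refine h5.congr fun z _ => ?_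
    have e : ∀ c : E, z - (c - v) = z + v - c := fun c => by abel
    simp only [ψ, f, Pi.add_apply, Pi.pow_apply, smul_eq_mul, e]
  have hc : Continuous ψ := by
    simp only [ψ, f]; fun_prop
  have hsub : D.core ⊆ {z | ψ z ≤ D.f j (D.P (j + 2))} := by
    refine closure_minimal (convexHull_min ?_ ?_) (isClosed_le hc continuous_const)
    · rintro _ ⟨l, rfl⟩
      exact D.key j l hv'
    · have := hψ.convex_le (D.f j (D.P (j + 2)))
      simpa using this
  exact hsub hq

lemma strict_max (j : ℕ) {Z : E} (hZ : Z ∈ D.body) (hne : Z ≠ D.P (j + 2)) :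
    D.f j Z < D.f j (D.P (j + 2)) := by
  have h1 := D.body_bound j hZ
  have h2 : 0 < ‖Z - D.P (j + 2)‖ := norm_pos_iff.mpr (sub_ne_zero.mpr hne)
  have h3 := tau_pos j
  have : 0 < tau j / 100 * ‖Z - D.P (j + 2)‖ ^ 2 := by positivity
  linarith

lemma P_mem (j : ℕ) : D.P (j + 2) ∈ D.body := by
  refine ⟨D.Q j, D.Q_mem j, rad • uv (D.a j), ?_, by simp [Q]⟩
  rw [mem_closedBall_zero_iff, norm_smul, Real.norm_of_nonneg rad_pos.le]
  nlinarith [norm_uv_le (D.a j), rad_pos]

lemma P_mem_frontier (j : ℕ) : D.P (j + 2) ∈ frontier D.body := by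
  refine ⟨subset_closure (D.P_mem j), fun hi => ?_⟩
  obtain ⟨ε, hε, hb⟩ := Metric.isOpen_iff.mp isOpen_interior _ hi
  set e : E := (ε / 2) • D.T 0 with he
  have ne : ‖e‖ = ε / 2 := norm_smul_unit (D.nT 0) (by linarith)
  have hne : e ≠ 0 := by
    intro h0; rw [h0, norm_zero] at ne; linarith
  have m1 : D.P (j + 2) + e ∈ D.body := interior_subset (hb (by
    rw [mem_ball_iff_norm]; simp [ne]; linarith))
  have m2 : D.P (j + 2) - e ∈ D.body := interior_subset (hb (by
    rw [mem_ball_iff_norm]; simp [ne]; linarith))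
  have s1 := D.strict_max j m1 (by simpa using hne)
  have s2 := D.strict_max j m2 (by simpa using hne)
  have c := (D.convexOn_f j).2 (mem_univ (D.P (j + 2) + e)) (mem_univ (D.P (j + 2) - e))
    (show (0 : ℝ) ≤ 1 / 2 by norm_num) (show (0 : ℝ) ≤ 1 / 2 by norm_num) (by norm_num)
  have e2 : (1 / 2 : ℝ) • (D.P (j + 2) + e) + (1 / 2 : ℝ) • (D.P (j + 2) - e) = D.P (j + 2) := by
    module
  rw [e2, smul_eq_mul, smul_eq_mul] at c
  linarith

lemma jump (j : ℕ) : 1 / 4 ≤ dist (D.P (j + 3)) (D.P j) := by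
  rw [dist_eq_norm]
  have := (abs_le.mp (D.norm_P_sub (j + 3) j)).1
  linarith [D.farl j, tau_le j, tau_le (j + 3)]

lemma not_tendsto (c : ℕ) :
    ¬ ∃ L : E, Filter.Tendsto (fun n => D.P (3 * n + c)) Filter.atTop (nhds L) := by
  rintro ⟨L, hL⟩
  obtain ⟨n, hn⟩ := Metric.cauchySeq_iff'.mp hL.cauchySeq (1 / 4) (by norm_num)
  have h1 := hn (n + 1) (Nat.le_succ n)
  have h2 := D.jump (3 * n + c)
  rw [show 3 * (n + 1) + c = 3 * n + c + 3 by ring] at h1
  linarith

lemma affineIndependent (j : ℕ) : AffineIndependent ℝ ![D.P (j + 2), D.P (j + 1), D.P j] := by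
  rw [affineIndependent_iff_not_collinear_set]
  intro hc
  have a1 := abs_le.mp (D.norm_P_sub (j + 1) j)
  have a2 := abs_le.mp (D.norm_P_sub (j + 2) j)
  have a3 := abs_le.mp (D.norm_P_sub (j + 1 + 1) (j + 1))
  rw [D.norm_e1] at a1 a3
  rw [D.norm_e2] at a2
  rw [← dist_eq_norm] at a1 a2 a3
  rw [show j + 1 + 1 = j + 2 from rfl] at a3
  have := tau_le j
  have := tau_le (j + 1)
  have := tau_le (j + 2)
  have := D.d1l j
  have := D.d1u j
  have := D.d1l (j + 1)
  have := D.d1u (j + 1)
  have := D.d2l j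
  have := D.d2u j
  rcases hc.wbtw_or_wbtw_or_wbtw with h | h | h
  · have := h.dist_add_dist
    linarith [a1.1, a1.2, a2.1, a2.2, a3.1, a3.2]
  · have := h.dist_add_dist
    rw [dist_comm (D.P j), dist_comm (D.P (j + 1)) (D.P (j + 2))] at this
    linarith [a1.1, a1.2, a2.1, a2.2, a3.1, a3.2]
  · have := h.dist_add_dist
    rw [dist_comm (D.P j), dist_comm (D.P j)] at this
    linarith [a1.1, a1.2, a2.1, a2.2, a3.1, a3.2]

end Data

end Pool.Agent.Lib.MP_26b77b_gt
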