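import Pool.Agent.Lib.MP_26b77b_gt.Key

set_option autoImplicit false

namespace Pool.Agent.Lib.MP_26b77b_gt

open scoped RealInnerProductSpace

namespace Data

variable {E : Type*} [NormedAddCommGroup E] [InnerProductSpace ℝ E] (D : Data E)

lemma f_le_quad (j : ℕ) {B : E} (h1 : 1 ≤ ‖B - D.P j‖) (h2 : 1 ≤ ‖B - D.P (j + 1)‖) (Z : E) :
    D.f j Z ≤ D.f j B + ⟪uv (B - D.P j) + uv (B - D.P (j + 1)), Z - B⟫ + ‖Z - B‖ ^ 2 := by
  have k1 := norm_add_le_quad h1 (Z - B)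
  have k2 := norm_add_le_quad h2 (Z - B)
  have e1 : B - D.P j + (Z - B) = Z - D.P j := by abel
  have e2 : B - D.P (j + 1) + (Z - B) = Z - D.P (j + 1) := by abel
  rw [e1] at k1
  rw [e2] at k2
  unfold f
  rw [inner_add_left]
  linarith

lemma phi_bound (l : ℕ) {v : E} (hv : ‖v‖ ≤ rad) {g B : E} {δ : ℝ} (hg1 : 1 ≤ ‖g‖)
    (hg2 : ‖g‖ ≤ 2) (hδ : ‖uv g - uv (D.a l)‖ ≤ δ) :
    ⟪g, D.Q l + v - B⟫ + 2 * ‖D.Q l + v - B‖ ^ 2
      ≤ ⟪g, D.P (l + 2) - B⟫ + 4 * ‖D.P (l + 2) - B‖ ^ 2 + 4 * rad * δ ^ 2 := by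
  set w : E := v - rad • uv (D.a l) with hw
  have hu : ‖uv (D.a l)‖ = 1 := norm_uv (by
    intro h0
    have := (D.a_facts l).1
    rw [h0, norm_zero] at this
    linarith)
  have e1 : D.Q l + v - B = w + (D.P (l + 2) - B) := by rw [hw]; unfold Q; abel
  have hw2 : ‖w‖ ^ 2 + 2 * rad * ⟪uv (D.a l), w⟫ ≤ 0 := by
    have e2 : v = w + rad • uv (D.a l) := by rw [hw]; abel
    have h3 : ‖v‖ ^ 2 ≤ rad ^ 2 := pow_le_pow_left₀ (norm_nonneg _) hv 2
    rw [e2, norm_add_sq_real, norm_smul, hu, real_inner_smul_right, real_inner_comm,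
      Real.norm_of_nonneg rad_pos.le] at h3
    nlinarith
  have h4 := disc_bound rad_pos (by unfold rad; norm_num) hg1 hg2 hδ hw2
  rw [e1, inner_add_right]
  have h5 : ‖w + (D.P (l + 2) - B)‖ ^ 2 ≤ 2 * ‖w‖ ^ 2 + 2 * ‖D.P (l + 2) - B‖ ^ 2 := by
    have h6 := norm_add_le w (D.P (l + 2) - B)
    have h7 : ‖w + (D.P (l + 2) - B)‖ ^ 2 ≤ (‖w‖ + ‖D.P (l + 2) - B‖) ^ 2 :=
      pow_le_pow_left₀ (norm_nonneg _) h6 2
    nlinarith [sq_nonneg (‖w‖ - ‖D.P (l + 2) - B‖)]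
  linarith

lemma dist1 (j : ℕ) : 1 ≤ ‖D.P (j + 2) - D.P j‖ := by
  have := (abs_le.mp (D.norm_P_sub (j + 2) j)).1
  rw [D.norm_e2] at this
  linarith [D.d2l j, tau_le j, tau_le (j + 2)]

lemma dist2 (j : ℕ) : 1 ≤ ‖D.P (j + 2) - D.P (j + 1)‖ := by
  have := (abs_le.mp (D.norm_P_sub (j + 1 + 1) (j + 1))).1
  rw [D.norm_e1] at this
  linarith [D.d1l (j + 1), tau_le (j + 1), tau_le (j + 1 + 1)]

lemma norm_Q_sub (l : ℕ) {v : E} (hv : ‖v‖ ≤ rad) :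
    ‖D.Q l + v - D.V (l + 2)‖ ≤ 1 / 1000 := by
  have e : D.Q l + v - D.V (l + 2) = D.h (l + 2) - rad • uv (D.a l) + v := by
    unfold Q P; abel
  rw [e]
  have h1 := D.norm_h (l + 2)
  have h2 : ‖rad • uv (D.a l)‖ ≤ rad := by
    rw [norm_smul, Real.norm_of_nonneg rad_pos.le]
    nlinarith [norm_uv_le (D.a l), rad_pos]
  have h3 := norm_add_le (D.h (l + 2) - rad • uv (D.a l)) v
  have h4 := norm_sub_le (D.h (l + 2)) (rad • uv (D.a l))
  have h5 := tau_le (l + 2)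
  have h6 : rad ≤ 1 / 10000 := by unfold rad; norm_num
  linarith

lemma far_le (j l : ℕ) {v : E} (hv : ‖v‖ ≤ rad) : ‖D.Q l + v - D.P (j + 2)‖ ^ 2 ≤ 9 := by
  have h1 := D.norm_Q_sub l hv
  have e : D.Q l + v - D.P (j + 2)
      = (D.Q l + v - D.V (l + 2)) + D.V (l + 2) - D.V (j + 2) - D.h (j + 2) := by
    unfold P; abel
  have h2 := D.norm_h (j + 2)
  have h3 := tau_le (j + 2)
  have h4 : ‖D.Q l + v - D.P (j + 2)‖ ≤ 3 := by
    rw [e]
    have k1 := norm_sub_le ((D.Q l + v - D.V (l + 2)) + D.V (l + 2) - D.V (j + 2)) (D.h (j + 2))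
    have k2 := norm_sub_le ((D.Q l + v - D.V (l + 2)) + D.V (l + 2)) (D.V (j + 2))
    have k3 := norm_add_le (D.Q l + v - D.V (l + 2)) (D.V (l + 2))
    linarith [D.nV (l + 2), D.nV (j + 2)]
  nlinarith [norm_nonneg (D.Q l + v - D.P (j + 2))]

/-- same cluster -/
lemma case_same (j l : ℕ) (hl : l % 6 = j % 6) {v : E} (hv : ‖v‖ ≤ rad) :
    D.f j (D.Q l + v) + tau j / 100 * ‖D.Q l + v - D.P (j + 2)‖ ^ 2 ≤ D.f j (D.P (j + 2)) := by
  have h1 := D.f_le_quad j (D.dist1 j) (D.dist2 j) (D.Q l + v)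
  change _ ≤ _ + ⟪D.a j, _⟫ + _ at h1
  obtain ⟨g1, g2, g3, g4⟩ := D.a_facts j
  obtain ⟨-, g2', -, -⟩ := D.a_facts l
  have g5 := D.norm_a_le j
  have g6 := D.a_rot j
  have hV : D.V (l + 2) = D.V (j + 2) := D.perV _ _ (by omega)
  have hT : D.T (l + 2) = D.T (j + 2) := D.perT _ _ (by omega)
  have hN : D.N (l + 2) = D.N (j + 2) := D.perN _ _ (by omega)
  have t0 := tau_pos j
  have t0' := tau_pos l
  have t3 := tau_le j
  have hμ : tau j / 100 * ‖D.Q l + v - D.P (j + 2)‖ ^ 2 ≤ ‖D.Q l + v - D.P (j + 2)‖ ^ 2 := by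
    nlinarith [sq_nonneg ‖D.Q l + v - D.P (j + 2)‖]
  suffices hs : ⟪D.a j, D.Q l + v - D.P (j + 2)⟫ + 2 * ‖D.Q l + v - D.P (j + 2)‖ ^ 2 ≤ 0 by
    linarith
  rcases eq_or_ne l j with rfl | hne
  · have h2 := D.phi_bound l hv (B := D.P (l + 2)) (δ := 0) g1 g5 (by simp)
    simpa using h2
  have hδ : ‖uv (D.a j) - uv (D.a l)‖ ≤ 10 * tau j + 10 * tau l := by
    have e : uv (D.a j) - uv (D.a l)
        = (uv (D.a j) - D.N (j + 2)) - (uv (D.a l) - D.N (l + 2)) := by rw [hN]; abel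
    rw [e]
    refine (norm_sub_le _ _).trans ?_
    linarith
  have h2 := D.phi_bound l hv (B := D.P (j + 2)) g1 g5 hδ
  have e1 : D.P (l + 2) - D.P (j + 2) = D.h (l + 2) - D.h (j + 2) := by
    unfold P; rw [hV]; abel
  have n1 : ‖D.P (l + 2) - D.P (j + 2)‖ ≤ 2 * tau (l + 2) + 2 * tau (j + 2) := by
    rw [e1]; exact (norm_sub_le _ _).trans (add_le_add (D.norm_h _) (D.norm_h _))
  have n2 : ‖D.P (l + 2) - D.P (j + 2)‖ ^ 2 ≤ (2 * tau (l + 2) + 2 * tau (j + 2)) ^ 2 :=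
    pow_le_pow_left₀ (norm_nonneg _) n1 2
  have e2 : ⟪D.a j, D.P (l + 2) - D.P (j + 2)⟫
      = (tau (l + 2) - tau (j + 2)) * ⟪D.a j, D.T (j + 2)⟫
        - 100 * (tau (l + 2) ^ 2 - tau (j + 2) ^ 2) * ⟪D.a j, D.N (j + 2)⟫ := by
    rw [e1]; unfold h
    rw [hT, hN]
    simp only [inner_sub_right, real_inner_smul_right]
    ring
  have g7 : ⟪D.a j, D.N (j + 2)⟫ ≤ 2 := by
    have := real_inner_le_norm (D.a j) (D.N (j + 2))
    rw [D.nN] at this; linarith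
  have tj : tau (j + 2) = tau j / 10000 := by
    rw [show j + 2 = (j + 1) + 1 from rfl, tau_succ, tau_succ]; ring
  have tl : tau (l + 2) = tau l / 10000 := by
    rw [show l + 2 = (l + 1) + 1 from rfl, tau_succ, tau_succ]; ring
  rw [e2] at h2
  rw [tj, tl] at h2 n2
  have hr : rad = 1 / 10 ^ 12 := rfl
  rw [hr] at h2
  set α := ⟪D.a j, D.T (j + 2)⟫
  set ν := ⟪D.a j, D.N (j + 2)⟫
  set p := tau j with hp
  set q := tau l with hq
  rcases lt_or_gt_of_ne hne with hlt | hgt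
  · -- l + 6 ≤ j
    have hpq : p ≤ q / 10 ^ 8 := by
      have h3 : tau j ≤ tau (l + 1 + 1 + 1 + 1) := tau_anti (by omega)
      rw [tau_succ, tau_succ, tau_succ, tau_succ] at h3
      rw [hp, hq]; linarith
    have k1 : (q / 10000 - p / 10000) * α ≤ q / 10000 * (5 * (q / 10 ^ 8)) := by
      have : α ≤ 5 * (q / 10 ^ 8) := by linarith
      have h0 : 0 ≤ α := by linarith
      nlinarith
    have k2 : 99 * (q / 10000) ^ 2 ≤ 100 * ((q / 10000) ^ 2 - (p / 10000) ^ 2) * ν := by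
      have h3 : (p / 10000) ^ 2 ≤ (q / 10000) ^ 2 / 100 := by nlinarith
      have h4 : 0 ≤ (q / 10000) ^ 2 - (p / 10000) ^ 2 := by nlinarith
      nlinarith
    have k3 : (2 * (q / 10000) + 2 * (p / 10000)) ^ 2 ≤ 9 * (q / 10000) ^ 2 := by nlinarith
    have k4 : (10 * p + 10 * q) ^ 2 ≤ 400 * q ^ 2 := by nlinarith
    nlinarith
  · -- j + 6 ≤ l
    have hpq : q ≤ p / 100 := by
      have h3 : tau l ≤ tau (j + 1) := tau_anti (by omega)
      rw [tau_succ] at h3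
      rw [hp, hq]; linarith
    have k1 : (q / 10000 - p / 10000) * α ≤ -(p / 20000 * (p / 4)) := by
      have h3 : q / 10000 - p / 10000 ≤ -(p / 20000) := by linarith
      have h0 : 0 ≤ α := by linarith
      nlinarith
    have k2 : -(200 * (p / 10000) ^ 2) ≤ 100 * ((q / 10000) ^ 2 - (p / 10000) ^ 2) * ν := by
      have h4 : 0 ≤ ν := by linarith
      nlinarith [sq_nonneg (q / 10000), sq_nonneg (p / 10000), mul_nonneg (sq_nonneg (q / 10000)) h4]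
    have k3 : (2 * (q / 10000) + 2 * (p / 10000)) ^ 2 ≤ 9 * (p / 10000) ^ 2 := by nlinarith
    have k4 : (10 * p + 10 * q) ^ 2 ≤ 400 * p ^ 2 := by nlinarith
    nlinarith

lemma f_P_ge (j : ℕ) : D.d2 j + D.d1 (j + 1) + ⟪-D.U2 j, D.h j⟫ - tau j / 40
    ≤ D.f j (D.P (j + 2)) := by
  unfold f
  have t1 := tau_succ j
  have t2 : tau (j + 2) = tau (j + 1) / 100 := tau_succ (j + 1)
  have t0 := tau_pos j
  have k1 := norm_add_ge (D.V (j + 2) - D.V j) (D.h (j + 2) - D.h j)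
  have e1 : D.V (j + 2) - D.V j + (D.h (j + 2) - D.h j) = D.P (j + 2) - D.P j := by
    unfold P; abel
  rw [e1, D.norm_e2, D.uv_e2, inner_sub_right] at k1
  have k2 := (abs_le.mp (D.norm_P_sub (j + 1 + 1) (j + 1))).1
  rw [D.norm_e1] at k2
  have k3 : |⟪D.U2 j, D.h (j + 2)⟫| ≤ ‖D.U2 j‖ * ‖D.h (j + 2)‖ := abs_real_inner_le_norm _ _
  rw [D.nU2, one_mul] at k3
  have k4 := (abs_le.mp k3).1
  have k5 := D.norm_h (j + 2)
  rw [inner_neg_left]
  have e2 : j + 1 + 1 = j + 2 := rfl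
  rw [e2] at k2
  linarith

/-- partner cluster -/
lemma case_tie (j l : ℕ) (hl : (l + 2) % 6 = (j + 5) % 6) {v : E} (hv : ‖v‖ ≤ rad) :
    D.f j (D.Q l + v) + tau j / 100 * ‖D.Q l + v - D.P (j + 2)‖ ^ 2 ≤ D.f j (D.P (j + 2)) := by
  have hV : D.V (l + 2) = D.V (j + 5) := D.perV _ _ hl
  have hT : D.T (l + 2) = D.T (j + 5) := D.perT _ _ hl
  have hN : D.N (l + 2) = D.N (j + 5) := D.perN _ _ hl
  have t0 := tau_pos j
  have t0' := tau_pos l
  have t3 := tau_le j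
  have t1 := tau_succ j
  have p1 : D.V (j + 5 + 1) = D.V j := D.perV _ _ (by omega)
  have p2 : D.V (j + 5 + 2) = D.V (j + 1) := D.perV _ _ (by omega)
  have n1 : ‖D.V (j + 5) - D.V j‖ = D.d1 (j + 5) := by
    rw [norm_sub_rev, ← p1, D.norm_e1]
  have n2 : ‖D.V (j + 5) - D.V (j + 1)‖ = D.d2 (j + 5) := by
    rw [norm_sub_rev, ← p2, D.norm_e2]
  have u1 : uv (D.V (j + 5) - D.V j) = -D.U1 (j + 5) := by
    rw [← neg_sub, uv_neg, ← p1, D.uv_e1]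
  have u2 : uv (D.V (j + 5) - D.V (j + 1)) = -D.U2 (j + 5) := by
    rw [← neg_sub, uv_neg, ← p2, D.uv_e2]
  have hd1 := D.d1l (j + 5)
  have hd2 := D.d2l (j + 5)
  have e1 : D.V (j + 5) - D.P j = (D.V (j + 5) - D.V j) + -D.h j := by unfold P; abel
  have e2 : D.V (j + 5) - D.P (j + 1) = (D.V (j + 5) - D.V (j + 1)) + -D.h (j + 1) := by
    unfold P; abel
  have nh := D.norm_h j
  have nh' := D.norm_h (j + 1)
  have q1 : 1 ≤ ‖D.V (j + 5) - D.P j‖ := by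
    have := norm_sub_norm_le (D.V (j + 5) - D.V j) (D.h j)
    rw [e1, ← sub_eq_add_neg]; linarith
  have q2 : 1 ≤ ‖D.V (j + 5) - D.P (j + 1)‖ := by
    have := norm_sub_norm_le (D.V (j + 5) - D.V (j + 1)) (D.h (j + 1))
    rw [e2, ← sub_eq_add_neg]; linarith
  have h1 := D.f_le_quad j q1 q2 (D.Q l + v)
  set g : E := uv (D.V (j + 5) - D.P j) + uv (D.V (j + 5) - D.P (j + 1)) with hg
  have gc : ‖g - D.b' (j + 5) • D.N (j + 5)‖ ≤ 5 * tau j := by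
    rw [← D.bis', ← u1, ← u2]
    have k1 := norm_uv_sub_le (a := D.V (j + 5) - D.V j) (by linarith) (-D.h j)
    have k2 := norm_uv_sub_le (a := D.V (j + 5) - D.V (j + 1)) (by linarith) (-D.h (j + 1))
    rw [← e1, norm_neg] at k1
    rw [← e2, norm_neg] at k2
    have e3 : g - (uv (D.V (j + 5) - D.V j) + uv (D.V (j + 5) - D.V (j + 1)))
        = (uv (D.V (j + 5) - D.P j) - uv (D.V (j + 5) - D.V j))
          + (uv (D.V (j + 5) - D.P (j + 1)) - uv (D.V (j + 5) - D.V (j + 1))) := by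
      rw [hg]; abel
    rw [e3]
    refine (norm_add_le _ _).trans ?_
    linarith
  obtain ⟨g1, g2, g3, g4⟩ := close_facts (D.nN _) (D.nT _) (D.orth _) (D.bl' (j + 5))
    (by linarith) gc
  obtain ⟨-, g2', -, -⟩ := D.a_facts l
  have g5 : ‖g‖ ≤ 2 := by
    refine (norm_add_le _ _).trans ?_
    linarith [norm_uv_le (D.V (j + 5) - D.P j), norm_uv_le (D.V (j + 5) - D.P (j + 1))]
  have hδ : ‖uv g - uv (D.a l)‖ ≤ 10 * tau j + 10 * tau l := by
    have e : uv g - uv (D.a l)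
        = (uv g - D.N (j + 5)) - (uv (D.a l) - D.N (l + 2)) := by rw [hN]; abel
    rw [e]
    refine (norm_sub_le _ _).trans ?_
    linarith
  have h2 := D.phi_bound l hv (B := D.V (j + 5)) g1 g5 hδ
  have e4 : D.P (l + 2) - D.V (j + 5) = D.h (l + 2) := by unfold P; rw [hV]; abel
  have tl : tau (l + 2) = tau l / 10000 := by
    rw [show l + 2 = (l + 1) + 1 from rfl, tau_succ, tau_succ]; ring
  have n3 : ‖D.h (l + 2)‖ ^ 2 ≤ (2 * tau (l + 2)) ^ 2 :=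
    pow_le_pow_left₀ (norm_nonneg _) (D.norm_h _) 2
  have e5 : ⟪g, D.h (l + 2)⟫ = tau (l + 2) * ⟪g, D.T (j + 5)⟫
      - 100 * tau (l + 2) ^ 2 * ⟪g, D.N (j + 5)⟫ := by
    unfold h
    rw [hT, hN]
    simp only [inner_sub_right, real_inner_smul_right]
  rw [e4, e5] at h2
  rw [tl] at h2 n3
  have hr : rad = 1 / 10 ^ 12 := rfl
  rw [hr] at h2
  have h3 : ⟪g, D.Q l + v - D.V (j + 5)⟫ + 2 * ‖D.Q l + v - D.V (j + 5)‖ ^ 2 ≤ 2 * tau j ^ 2 := by
    set p := tau j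
    set q := tau l
    have k1 : q / 10000 * ⟪g, D.T (j + 5)⟫ ≤ q / 10000 * (5 * p) :=
      mul_le_mul_of_nonneg_left g3 (by positivity)
    have k2 : 100 * (q / 10000) ^ 2 ≤ 100 * (q / 10000) ^ 2 * ⟪g, D.N (j + 5)⟫ := by
      nlinarith [sq_nonneg (q / 10000)]
    have k3 : (10 * p + 10 * q) ^ 2 ≤ 200 * p ^ 2 + 200 * q ^ 2 := by
      nlinarith [sq_nonneg (p - q)]
    nlinarith [sq_nonneg (p - 5 * (q / 10000)), sq_nonneg q, sq_nonneg p]
  have h4 : D.f j (D.V (j + 5)) ≤ D.d1 (j + 5) + D.d2 (j + 5) + ⟪D.U1 (j + 5), D.h j⟫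
      + 2 * tau j ^ 2 + tau j / 50 := by
    unfold f
    have k1 := norm_add_le_quad (b := D.V (j + 5) - D.V j) (by linarith) (-D.h j)
    rw [← e1, n1, u1, norm_neg, inner_neg_neg] at k1
    have k2 := norm_add_le (D.V (j + 5) - D.V (j + 1)) (-D.h (j + 1))
    rw [← e2, n2, norm_neg] at k2
    have k3 : ‖D.h j‖ ^ 2 ≤ (2 * tau j) ^ 2 := pow_le_pow_left₀ (norm_nonneg _) nh 2
    nlinarith
  have h5 := D.f_P_ge j
  have h6 := D.tie j
  have h7 := D.far_le j l hv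
  have h8 : 3 / 10 * tau j - 200 * tau j ^ 2 ≤ ⟪-D.U2 j, D.h j⟫ - ⟪D.U1 (j + 5), D.h j⟫ := by
    rw [← inner_sub_left]
    unfold h
    rw [inner_sub_right, real_inner_smul_right, real_inner_smul_right]
    have k1 := D.brk j
    have k2 : ⟪-D.U2 j - D.U1 (j + 5), D.N j⟫ ≤ 2 := by
      have k3 := real_inner_le_norm (-D.U2 j - D.U1 (j + 5)) (D.N j)
      have k4 := norm_sub_le (-D.U2 j) (D.U1 (j + 5))
      rw [norm_neg, D.nU2, D.nU1] at k4
      rw [D.nN] at k3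
      linarith
    nlinarith [sq_nonneg (tau j)]
  have h9 : tau j / 100 * ‖D.Q l + v - D.P (j + 2)‖ ^ 2 ≤ tau j / 100 * 9 :=
    mul_le_mul_of_nonneg_left h7 (by positivity)
  have h10 : tau j ^ 2 ≤ tau j / 10000 := by nlinarith
  nlinarith [sq_nonneg ‖D.Q l + v - D.V (j + 5)‖]

/-- the four remaining clusters -/
lemma case_far (j l : ℕ)
    (hl : ‖D.V (l + 2) - D.V j‖ + ‖D.V (l + 2) - D.V (j + 1)‖ ≤ 5 / 2) {v : E} (hv : ‖v‖ ≤ rad) :
    D.f j (D.Q l + v) + tau j / 100 * ‖D.Q l + v - D.P (j + 2)‖ ^ 2 ≤ D.f j (D.P (j + 2)) := by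
  have t0 := tau_pos j
  have t3 := tau_le j
  have t4 := tau_le (j + 1)
  have h5 := D.f_P_ge j
  have h7 := D.far_le j l hv
  have h9 : tau j / 100 * ‖D.Q l + v - D.P (j + 2)‖ ^ 2 ≤ tau j / 100 * 9 :=
    mul_le_mul_of_nonneg_left h7 (by positivity)
  have h1 := D.norm_Q_sub l hv
  have nh := D.norm_h j
  have nh' := D.norm_h (j + 1)
  have k3 : |⟪-D.U2 j, D.h j⟫| ≤ ‖-D.U2 j‖ * ‖D.h j‖ := abs_real_inner_le_norm _ _
  rw [norm_neg, D.nU2, one_mul] at k3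
  have k4 := (abs_le.mp k3).1
  have b1 : ∀ i, ‖D.Q l + v - D.P i‖ ≤ 1 / 1000 + ‖D.V (l + 2) - D.V i‖ + ‖D.h i‖ := by
    intro i
    have e : D.Q l + v - D.P i = (D.Q l + v - D.V (l + 2)) + (D.V (l + 2) - D.V i) - D.h i := by
      unfold P; abel
    rw [e]
    have k1 := norm_sub_le ((D.Q l + v - D.V (l + 2)) + (D.V (l + 2) - D.V i)) (D.h i)
    have k2 := norm_add_le (D.Q l + v - D.V (l + 2)) (D.V (l + 2) - D.V i)
    linarith
  have b2 := b1 j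
  have b3 := b1 (j + 1)
  have := D.d2l j
  have := D.d1l (j + 1)
  unfold f at *
  linarith

theorem key (j l : ℕ) {v : E} (hv : ‖v‖ ≤ rad) :
    D.f j (D.Q l + v) + tau j / 100 * ‖D.Q l + v - D.P (j + 2)‖ ^ 2 ≤ D.f j (D.P (j + 2)) := by
  have hc : (l + 2) % 6 = j % 6 ∨ (l + 2) % 6 = (j + 1) % 6 ∨ l % 6 = j % 6 ∨
      (l + 2) % 6 = (j + 3) % 6 ∨ (l + 2) % 6 = (j + 4) % 6 ∨ (l + 2) % 6 = (j + 5) % 6 := by
    omega
  rcases hc with h | h | h | h | h | h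
  · apply D.case_far j l _ hv
    rw [D.perV _ _ h, sub_self, norm_zero, norm_sub_rev, D.norm_e1]
    linarith [D.d1u j]
  · apply D.case_far j l _ hv
    rw [D.perV _ _ h, sub_self, norm_zero, D.norm_e1]
    linarith [D.d1u j]
  · exact D.case_same j l h hv
  · apply D.case_far j l _ hv
    rw [D.perV _ _ h]
    have h1 := D.norm_e2 (j + 1)
    have h2 := D.faru j
    have h3 := D.d2u (j + 1)
    rw [show j + 1 + 2 = j + 3 from rfl] at h1
    linarith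
  · apply D.case_far j l _ hv
    rw [D.perV _ _ h]
    have h1 := D.norm_e2 (j + 4)
    rw [D.perV (j + 4 + 2) j (by omega), norm_sub_rev] at h1
    have h2 := D.faru (j + 1)
    have h3 := D.d2u (j + 4)
    rw [show j + 1 + 3 = j + 4 from rfl] at h2
    linarith
  · exact D.case_tie j l h hv

end Data

end Pool.Agent.Lib.MP_26b77b_gt
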