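import Pool.Agent.Lib.MP_26b77b_gt.Body

set_option autoImplicit false

namespace Pool.Agent.Lib.MP_26b77b_gt

open scoped RealInnerProductSpace

abbrev Pl := EuclideanSpace ℝ (Fin 2)

noncomputable def mk (a b : ℝ) : Pl := !₂[a, b]

lemma mk_add (a b c d : ℝ) : mk a b + mk c d = mk (a + c) (b + d) := by
  ext i; fin_cases i <;> simp [mk]

lemma mk_sub (a b c d : ℝ) : mk a b - mk c d = mk (a - c) (b - d) := by
  ext i; fin_cases i <;> simp [mk]

lemma mk_neg (a b : ℝ) : -mk a b = mk (-a) (-b) := by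
  ext i; fin_cases i <;> simp [mk]

lemma mk_smul (c a b : ℝ) : c • mk a b = mk (c * a) (c * b) := by
  ext i; fin_cases i <;> simp [mk]

lemma mk_inner (a b c d : ℝ) : ⟪mk a b, mk c d⟫ = a * c + b * d := by
  simp [mk, PiLp.inner_apply, Fin.sum_univ_two]; ring

lemma mk_norm_sq (a b : ℝ) : ‖mk a b‖ ^ 2 = a ^ 2 + b ^ 2 := by
  rw [← real_inner_self_eq_norm_sq, mk_inner]; ring

lemma mk_norm_eq {a b c : ℝ} (hc : 0 ≤ c) (h : a ^ 2 + b ^ 2 = c ^ 2) : ‖mk a b‖ = c := by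
  rw [← mk_norm_sq] at h
  exact (pow_left_inj₀ (norm_nonneg _) hc two_ne_zero).mp h

lemma mk_congr {a b c d : ℝ} (h1 : a = c) (h2 : b = d) : mk a b = mk c d := by rw [h1, h2]

noncomputable def s3 : ℝ := Real.sqrt 3

lemma s3_sq : s3 ^ 2 = 3 := Real.sq_sqrt (by norm_num)

lemma s3_lb : 1732 / 1000 < s3 := Real.lt_sqrt_of_sq_lt (by norm_num)

lemma s3_ub : s3 < 1733 / 1000 := by
  unfold s3
  rw [Real.sqrt_lt' (by norm_num)]; norm_num

noncomputable def vx : ℕ → ℝ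
  | 0 => ((3479 / 3721) + (0) * s3)
  | 1 => ((-3479 / 7442) + (-660 / 3721) * s3)
  | 2 => ((-3479 / 7442) + (-660 / 3721) * s3)
  | 3 => ((3479 / 3721) + (0) * s3)
  | 4 => ((-3479 / 7442) + (660 / 3721) * s3)
  | _ => ((-3479 / 7442) + (660 / 3721) * s3)

noncomputable def vy : ℕ → ℝ
  | 0 => ((-1320 / 3721) + (0) * s3)
  | 1 => ((-660 / 3721) + (3479 / 7442) * s3)
  | 2 => ((660 / 3721) + (-3479 / 7442) * s3)
  | 3 => ((1320 / 3721) + (0) * s3)
  | 4 => ((660 / 3721) + (3479 / 7442) * s3)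
  | _ => ((-660 / 3721) + (-3479 / 7442) * s3)

noncomputable def tx : ℕ → ℝ
  | 0 => ((-11 / 61) + (0) * s3)
  | 1 => ((11 / 122) + (-30 / 61) * s3)
  | 2 => ((11 / 122) + (-30 / 61) * s3)
  | 3 => ((-11 / 61) + (0) * s3)
  | 4 => ((11 / 122) + (30 / 61) * s3)
  | _ => ((11 / 122) + (30 / 61) * s3)

noncomputable def ty : ℕ → ℝ
  | 0 => ((-60 / 61) + (0) * s3)
  | 1 => ((-30 / 61) + (-11 / 122) * s3)
  | 2 => ((30 / 61) + (11 / 122) * s3)
  | 3 => ((60 / 61) + (0) * s3)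
  | 4 => ((30 / 61) + (-11 / 122) * s3)
  | _ => ((-30 / 61) + (11 / 122) * s3)

noncomputable def nx : ℕ → ℝ
  | 0 => ((60 / 61) + (0) * s3)
  | 1 => ((-30 / 61) + (-11 / 122) * s3)
  | 2 => ((-30 / 61) + (-11 / 122) * s3)
  | 3 => ((60 / 61) + (0) * s3)
  | 4 => ((-30 / 61) + (11 / 122) * s3)
  | _ => ((-30 / 61) + (11 / 122) * s3)

noncomputable def ny : ℕ → ℝ
  | 0 => ((-11 / 61) + (0) * s3)
  | 1 => ((-11 / 122) + (30 / 61) * s3)
  | 2 => ((11 / 122) + (-30 / 61) * s3)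
  | 3 => ((11 / 61) + (0) * s3)
  | 4 => ((11 / 122) + (30 / 61) * s3)
  | _ => ((-11 / 122) + (-30 / 61) * s3)

noncomputable def u1x : ℕ → ℝ
  | 0 => ((0) + (-1 / 2) * s3)
  | 1 => ((0) + (0) * s3)
  | 2 => ((0) + (1 / 2) * s3)
  | 3 => ((0) + (-1 / 2) * s3)
  | 4 => ((0) + (0) * s3)
  | _ => ((0) + (1 / 2) * s3)

noncomputable def u1y : ℕ → ℝ
  | 0 => ((1 / 2) + (0) * s3)
  | 1 => ((-1) + (0) * s3)
  | 2 => ((1 / 2) + (0) * s3)
  | 3 => ((1 / 2) + (0) * s3)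
  | 4 => ((-1) + (0) * s3)
  | _ => ((1 / 2) + (0) * s3)

noncomputable def u2x : ℕ → ℝ
  | 0 => ((-660 / 3721) + (-3479 / 7442) * s3)
  | 1 => ((660 / 3721) + (3479 / 7442) * s3)
  | 2 => ((1320 / 3721) + (0) * s3)
  | 3 => ((660 / 3721) + (-3479 / 7442) * s3)
  | 4 => ((-660 / 3721) + (3479 / 7442) * s3)
  | _ => ((-1320 / 3721) + (0) * s3)

noncomputable def u2y : ℕ → ℝ
  | 0 => ((-3479 / 7442) + (660 / 3721) * s3)
  | 1 => ((-3479 / 7442) + (660 / 3721) * s3)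
  | 2 => ((3479 / 3721) + (0) * s3)
  | 3 => ((-3479 / 7442) + (-660 / 3721) * s3)
  | 4 => ((-3479 / 7442) + (-660 / 3721) * s3)
  | _ => ((3479 / 3721) + (0) * s3)

noncomputable def dd1 : ℕ → ℝ
  | 0 => ((1320 / 3721) + (3479 / 3721) * s3)
  | 1 => ((-1320 / 3721) + (3479 / 3721) * s3)
  | 2 => ((1320 / 3721) + (3479 / 3721) * s3)
  | 3 => ((-1320 / 3721) + (3479 / 3721) * s3)
  | 4 => ((1320 / 3721) + (3479 / 3721) * s3)
  | _ => ((-1320 / 3721) + (3479 / 3721) * s3)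

noncomputable def bb : ℕ → ℝ
  | 0 => ((-11 / 61) + (60 / 61) * s3)
  | 1 => ((11 / 61) + (60 / 61) * s3)
  | 2 => ((-11 / 61) + (60 / 61) * s3)
  | 3 => ((11 / 61) + (60 / 61) * s3)
  | 4 => ((-11 / 61) + (60 / 61) * s3)
  | _ => ((11 / 61) + (60 / 61) * s3)

noncomputable def bb' : ℕ → ℝ
  | 0 => ((11 / 61) + (60 / 61) * s3)
  | 1 => ((-11 / 61) + (60 / 61) * s3)
  | 2 => ((11 / 61) + (60 / 61) * s3)
  | 3 => ((-11 / 61) + (60 / 61) * s3)
  | 4 => ((11 / 61) + (60 / 61) * s3)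
  | _ => ((-11 / 61) + (60 / 61) * s3)

lemma cases6 (j : ℕ) :
    (j % 6 = 0 ∧ (j + 1) % 6 = 1 ∧ (j + 2) % 6 = 2 ∧ (j + 3) % 6 = 3 ∧ (j + 5) % 6 = 5) ∨
    (j % 6 = 1 ∧ (j + 1) % 6 = 2 ∧ (j + 2) % 6 = 3 ∧ (j + 3) % 6 = 4 ∧ (j + 5) % 6 = 0) ∨
    (j % 6 = 2 ∧ (j + 1) % 6 = 3 ∧ (j + 2) % 6 = 4 ∧ (j + 3) % 6 = 5 ∧ (j + 5) % 6 = 1) ∨
    (j % 6 = 3 ∧ (j + 1) % 6 = 4 ∧ (j + 2) % 6 = 5 ∧ (j + 3) % 6 = 0 ∧ (j + 5) % 6 = 2) ∨
    (j % 6 = 4 ∧ (j + 1) % 6 = 5 ∧ (j + 2) % 6 = 0 ∧ (j + 3) % 6 = 1 ∧ (j + 5) % 6 = 3) ∨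
    (j % 6 = 5 ∧ (j + 1) % 6 = 0 ∧ (j + 2) % 6 = 1 ∧ (j + 3) % 6 = 2 ∧ (j + 5) % 6 = 4) := by
  have h : j % 6 < 6 := Nat.mod_lt _ (by norm_num)
  have e1 := Nat.add_mod j 1 6
  have e2 := Nat.add_mod j 2 6
  have e3 := Nat.add_mod j 3 6
  have e5 := Nat.add_mod j 5 6
  rw [e1, e2, e3, e5]
  generalize j % 6 = k at h
  interval_cases k <;> simp

lemma far_eq (j : ℕ) :
    ‖mk (vx ((j + 3) % 6)) (vy ((j + 3) % 6)) - mk (vx (j % 6)) (vy (j % 6))‖ = 2640 / 3721 := by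
  rw [mk_sub]
  apply mk_norm_eq (by norm_num)
  have hs := s3_sq
  rcases cases6 j with h | h | h | h | h | h <;> obtain ⟨h0, h1, h2, h3, h5⟩ := h <;>
    simp only [h0, h3, vx, vy] <;> nlinarith

noncomputable def hexagon : Data Pl where
  V j := mk (vx (j % 6)) (vy (j % 6))
  T j := mk (tx (j % 6)) (ty (j % 6))
  N j := mk (nx (j % 6)) (ny (j % 6))
  U1 j := mk (u1x (j % 6)) (u1y (j % 6))
  U2 j := mk (u2x (j % 6)) (u2y (j % 6))
  d1 j := dd1 (j % 6)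
  d2 _ := s3
  b j := bb (j % 6)
  b' j := bb' (j % 6)
  perV i j h := by rw [h]
  perT i j h := by rw [h]
  perN i j h := by rw [h]
  nV j := by
    apply le_of_eq
    apply mk_norm_eq (by norm_num)
    have hs := s3_sq
    rcases cases6 j with h | h | h | h | h | h <;> obtain ⟨h0, h1, h2, h3, h5⟩ := h <;>
      simp only [h0, vx, vy] <;> nlinarith
  nT j := by
    apply mk_norm_eq (by norm_num)
    have hs := s3_sq
    rcases cases6 j with h | h | h | h | h | h <;> obtain ⟨h0, h1, h2, h3, h5⟩ := h <;>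
      simp only [h0, tx, ty] <;> nlinarith
  nN j := by
    apply mk_norm_eq (by norm_num)
    have hs := s3_sq
    rcases cases6 j with h | h | h | h | h | h <;> obtain ⟨h0, h1, h2, h3, h5⟩ := h <;>
      simp only [h0, nx, ny] <;> nlinarith
  orth j := by
    rw [mk_inner]
    have hs := s3_sq
    rcases cases6 j with h | h | h | h | h | h <;> obtain ⟨h0, h1, h2, h3, h5⟩ := h <;>
      simp only [h0, nx, ny, tx, ty] <;> nlinarith
  nU1 j := by
    apply mk_norm_eq (by norm_num)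
    have hs := s3_sq
    rcases cases6 j with h | h | h | h | h | h <;> obtain ⟨h0, h1, h2, h3, h5⟩ := h <;>
      simp only [h0, u1x, u1y] <;> nlinarith
  nU2 j := by
    apply mk_norm_eq (by norm_num)
    have hs := s3_sq
    rcases cases6 j with h | h | h | h | h | h <;> obtain ⟨h0, h1, h2, h3, h5⟩ := h <;>
      simp only [h0, u2x, u2y] <;> nlinarith
  e1 j := by
    rw [mk_sub, mk_smul]
    have hs := s3_sq
    rcases cases6 j with h | h | h | h | h | h <;> obtain ⟨h0, h1, h2, h3, h5⟩ := h <;>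
      simp only [h0, h1, vx, vy, u1x, u1y, dd1] <;> apply mk_congr <;> nlinarith
  e2 j := by
    rw [mk_sub, mk_smul]
    have hs := s3_sq
    rcases cases6 j with h | h | h | h | h | h <;> obtain ⟨h0, h1, h2, h3, h5⟩ := h <;>
      simp only [h0, h2, vx, vy, u2x, u2y] <;> apply mk_congr <;> nlinarith
  d1l j := by
    have := s3_lb
    rcases cases6 j with h | h | h | h | h | h <;> obtain ⟨h0, h1, h2, h3, h5⟩ := h <;>
      simp only [h0, dd1] <;> linarith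
  d1u j := by
    have := s3_ub
    rcases cases6 j with h | h | h | h | h | h <;> obtain ⟨h0, h1, h2, h3, h5⟩ := h <;>
      simp only [h0, dd1] <;> linarith
  d2l j := by linarith [s3_lb]
  d2u j := by linarith [s3_ub]
  bis j := by
    rw [mk_add, mk_smul]
    have hs := s3_sq
    rcases cases6 j with h | h | h | h | h | h <;> obtain ⟨h0, h1, h2, h3, h5⟩ := h <;>
      simp only [h0, h1, h2, nx, ny, u1x, u1y, u2x, u2y, bb] <;> apply mk_congr <;> nlinarith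
  bl j := by
    have := s3_lb
    rcases cases6 j with h | h | h | h | h | h <;> obtain ⟨h0, h1, h2, h3, h5⟩ := h <;>
      simp only [h0, bb] <;> linarith
  bis' j := by
    rw [mk_neg, mk_neg, mk_add, mk_smul]
    have hs := s3_sq
    rcases cases6 j with h | h | h | h | h | h <;> obtain ⟨h0, h1, h2, h3, h5⟩ := h <;>
      simp only [h0, nx, ny, u1x, u1y, u2x, u2y, bb'] <;> apply mk_congr <;> nlinarith
  bl' j := by
    have := s3_lb
    rcases cases6 j with h | h | h | h | h | h <;> obtain ⟨h0, h1, h2, h3, h5⟩ := h <;>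
      simp only [h0, bb'] <;> linarith
  tie j := by
    rcases cases6 j with h | h | h | h | h | h <;> obtain ⟨h0, h1, h2, h3, h5⟩ := h <;>
      simp only [h1, h5, dd1] <;> ring
  rot j := by
    rw [mk_inner, mk_inner, mk_inner]
    have hs := s3_sq
    have := s3_ub
    have hs3 : s3 ^ 3 = 3 * s3 := by rw [pow_succ, hs]
    have hs4 : s3 ^ 4 = 9 := by
      rw [show s3 ^ 4 = (s3 ^ 2) ^ 2 by ring, hs]; norm_num
    rcases cases6 j with h | h | h | h | h | h <;> obtain ⟨h0, h1, h2, h3, h5⟩ := h <;>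
      simp only [h0, h2, tx, ty, u2x, u2y] <;> nlinarith
  brk j := by
    rw [mk_neg, mk_sub, mk_inner]
    have hs := s3_sq
    have := s3_lb
    rcases cases6 j with h | h | h | h | h | h <;> obtain ⟨h0, h1, h2, h3, h5⟩ := h <;>
      simp only [h0, h5, tx, ty, u1x, u1y, u2x, u2y] <;> nlinarith
  farl j := by rw [far_eq]; norm_num
  faru j := by rw [far_eq]; norm_num

end Pool.Agent.Lib.MP_26b77b_gt
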