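import Pool.Agent.Lib.MP_26b77b_gt.Unit

set_option autoImplicit false

namespace Pool.Agent.Lib.MP_26b77b_gt

open scoped RealInnerProductSpace

/-- the limiting six-cycle of vertices with tangent and normal directions -/
structure Data (E : Type*) [NormedAddCommGroup E] [InnerProductSpace ℝ E] where
  V : ℕ → E
  T : ℕ → E
  N : ℕ → E
  U1 : ℕ → E
  U2 : ℕ → E
  d1 : ℕ → ℝ
  d2 : ℕ → ℝ
  b : ℕ → ℝ
  b' : ℕ → ℝ
  perV : ∀ i j, i % 6 = j % 6 → V i = V j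
  perT : ∀ i j, i % 6 = j % 6 → T i = T j
  perN : ∀ i j, i % 6 = j % 6 → N i = N j
  nV : ∀ j, ‖V j‖ ≤ 1
  nT : ∀ j, ‖T j‖ = 1
  nN : ∀ j, ‖N j‖ = 1
  orth : ∀ j, ⟪N j, T j⟫ = 0
  nU1 : ∀ j, ‖U1 j‖ = 1
  nU2 : ∀ j, ‖U2 j‖ = 1
  e1 : ∀ j, V (j + 1) - V j = d1 j • U1 j
  e2 : ∀ j, V (j + 2) - V j = d2 j • U2 j
  d1l : ∀ j, 6 / 5 ≤ d1 j
  d1u : ∀ j, d1 j ≤ 2
  d2l : ∀ j, 17 / 10 ≤ d2 j
  d2u : ∀ j, d2 j ≤ 7 / 4
  bis : ∀ j, U2 j + U1 (j + 1) = b j • N (j + 2)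
  bl : ∀ j, 7 / 5 ≤ b j
  bis' : ∀ j, -U1 j + -U2 j = b' j • N j
  bl' : ∀ j, 7 / 5 ≤ b' j
  tie : ∀ j, d2 j + d1 (j + 1) = d1 (j + 5) + d2 (j + 5)
  rot : ∀ j, 2 / 5 * d2 j ≤ -(⟪T j, T (j + 2)⟫ - ⟪U2 j, T j⟫ * ⟪U2 j, T (j + 2)⟫)
  brk : ∀ j, 3 / 10 ≤ ⟪-U2 j - U1 (j + 5), T j⟫
  farl : ∀ j, 1 / 2 ≤ ‖V (j + 3) - V j‖
  faru : ∀ j, ‖V (j + 3) - V j‖ ≤ 3 / 4

noncomputable def tau (j : ℕ) : ℝ := (1 / 10000) * (1 / 100) ^ j

lemma tau_pos (j : ℕ) : 0 < tau j := by unfold tau; positivity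

lemma tau_succ (j : ℕ) : tau (j + 1) = tau j / 100 := by unfold tau; ring

lemma tau_anti {i j : ℕ} (h : i ≤ j) : tau j ≤ tau i := by
  unfold tau
  have : ((1 : ℝ) / 100) ^ j ≤ (1 / 100) ^ i :=
    pow_le_pow_of_le_one (by norm_num) (by norm_num) h
  linarith

lemma tau_le (j : ℕ) : tau j ≤ 1 / 10000 := by
  have := tau_anti (Nat.zero_le j)
  simpa [tau] using this

noncomputable def rad : ℝ := 1 / 10 ^ 12

lemma rad_pos : 0 < rad := by unfold rad; positivity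

namespace Data

variable {E : Type*} [NormedAddCommGroup E] [InnerProductSpace ℝ E] (D : Data E)

noncomputable def h (j : ℕ) : E := tau j • D.T j - (100 * tau j ^ 2) • D.N j

noncomputable def P (j : ℕ) : E := D.V j + D.h j

noncomputable def a (j : ℕ) : E := uv (D.P (j + 2) - D.P j) + uv (D.P (j + 2) - D.P (j + 1))

noncomputable def Q (j : ℕ) : E := D.P (j + 2) - rad • uv (D.a j)

noncomputable def f (j : ℕ) (Z : E) : ℝ := ‖Z - D.P j‖ + ‖Z - D.P (j + 1)‖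

lemma norm_h (j : ℕ) : ‖D.h j‖ ≤ 2 * tau j := by
  unfold h
  refine (norm_sub_le _ _).trans ?_
  have h0 := tau_pos j
  have h1 := tau_le j
  rw [norm_smul, norm_smul, D.nT, D.nN, Real.norm_of_nonneg h0.le,
    Real.norm_of_nonneg (by positivity)]
  nlinarith

lemma norm_e1 (j : ℕ) : ‖D.V (j + 1) - D.V j‖ = D.d1 j := by
  rw [D.e1, norm_smul_unit (D.nU1 j) (by linarith [D.d1l j])]

lemma norm_e2 (j : ℕ) : ‖D.V (j + 2) - D.V j‖ = D.d2 j := by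
  rw [D.e2, norm_smul_unit (D.nU2 j) (by linarith [D.d2l j])]

lemma uv_e1 (j : ℕ) : uv (D.V (j + 1) - D.V j) = D.U1 j := by
  rw [D.e1, uv_smul (D.nU1 j) (by linarith [D.d1l j])]

lemma uv_e2 (j : ℕ) : uv (D.V (j + 2) - D.V j) = D.U2 j := by
  rw [D.e2, uv_smul (D.nU2 j) (by linarith [D.d2l j])]

/-- distance between perturbed points -/
lemma norm_P_sub (i j : ℕ) : |‖D.P i - D.P j‖ - ‖D.V i - D.V j‖| ≤ 2 * tau i + 2 * tau j := by
  refine (abs_norm_sub_norm_le _ _).trans ?_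
  have : D.P i - D.P j - (D.V i - D.V j) = D.h i - D.h j := by unfold P; abel
  rw [this]
  exact (norm_sub_le _ _).trans (add_le_add (D.norm_h i) (D.norm_h j))

lemma a_close (j : ℕ) : ‖D.a j - D.b j • D.N (j + 2)‖ ≤ 5 * tau j := by
  rw [← D.bis, ← D.uv_e2, ← D.uv_e1]
  have h1 : ‖uv (D.P (j + 2) - D.P j) - uv (D.V (j + 2) - D.V j)‖
      ≤ 2 * ‖D.P (j + 2) - D.P j - (D.V (j + 2) - D.V j)‖ :=
    norm_uv_sub_le' (by rw [D.norm_e2]; linarith [D.d2l j])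
  have h2 : ‖uv (D.P (j + 2) - D.P (j + 1)) - uv (D.V (j + 1 + 1) - D.V (j + 1))‖
      ≤ 2 * ‖D.P (j + 2) - D.P (j + 1) - (D.V (j + 1 + 1) - D.V (j + 1))‖ :=
    norm_uv_sub_le' (by rw [D.norm_e1]; linarith [D.d1l (j + 1)])
  have e1 : D.P (j + 2) - D.P j - (D.V (j + 2) - D.V j) = D.h (j + 2) - D.h j := by
    unfold P; abel
  have e2 : D.P (j + 2) - D.P (j + 1) - (D.V (j + 1 + 1) - D.V (j + 1))
      = D.h (j + 2) - D.h (j + 1) := by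
    unfold P; abel
  rw [e1] at h1
  rw [e2] at h2
  have k1 := (norm_sub_le _ _).trans (add_le_add (D.norm_h (j + 2)) (D.norm_h j))
  have k2 := (norm_sub_le _ _).trans (add_le_add (D.norm_h (j + 2)) (D.norm_h (j + 1)))
  have t1 := tau_succ j
  have t2 : tau (j + 2) = tau (j + 1) / 100 := tau_succ (j + 1)
  have t0 := tau_pos j
  have e3 : D.a j - (uv (D.V (j + 2) - D.V j) + uv (D.V (j + 1 + 1) - D.V (j + 1)))
      = (uv (D.P (j + 2) - D.P j) - uv (D.V (j + 2) - D.V j))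
        + (uv (D.P (j + 2) - D.P (j + 1)) - uv (D.V (j + 1 + 1) - D.V (j + 1))) := by
    unfold a; abel
  rw [e3]
  refine (norm_add_le _ _).trans ?_
  linarith

/-- consequences of being close to a multiple of the unit normal -/
lemma close_facts {g n t : E} {β ε : ℝ} (hn : ‖n‖ = 1) (ht : ‖t‖ = 1) (ho : ⟪n, t⟫ = 0)
    (hβ : 7 / 5 ≤ β) (hε : ε ≤ 1 / 10) (hg : ‖g - β • n‖ ≤ ε) :
    1 ≤ ‖g‖ ∧ ‖uv g - n‖ ≤ 2 * ε ∧ ⟪g, t⟫ ≤ ε ∧ 1 ≤ ⟪g, n⟫ := by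
  have hb : ‖β • n‖ = β := norm_smul_unit hn (by linarith)
  refine ⟨?_, ?_, ?_, ?_⟩
  · have := abs_norm_sub_norm_le g (β • n)
    rw [hb] at this
    have := (abs_le.mp (this.trans hg)).1
    linarith
  · have h1 : ‖uv g - uv (β • n)‖ ≤ 2 * ‖g - β • n‖ := norm_uv_sub_le' (by rw [hb]; linarith)
    rw [uv_smul hn (by linarith)] at h1
    linarith
  · have h1 : ⟪g - β • n, t⟫ ≤ ‖g - β • n‖ * ‖t‖ := real_inner_le_norm _ _
    rw [inner_sub_left, real_inner_smul_left, ho, ht] at h1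
    linarith
  · have h1 : |⟪g - β • n, n⟫| ≤ ‖g - β • n‖ * ‖n‖ := abs_real_inner_le_norm _ _
    rw [inner_sub_left, real_inner_smul_left, real_inner_self_eq_norm_sq, hn] at h1
    have := (abs_le.mp h1).1
    linarith

lemma a_facts (j : ℕ) : 1 ≤ ‖D.a j‖ ∧ ‖uv (D.a j) - D.N (j + 2)‖ ≤ 2 * (5 * tau j) ∧
    ⟪D.a j, D.T (j + 2)⟫ ≤ 5 * tau j ∧ 1 ≤ ⟪D.a j, D.N (j + 2)⟫ :=
  close_facts (D.nN _) (D.nT _) (D.orth _) (D.bl j) (by linarith [tau_le j]) (D.a_close j)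

lemma norm_a_le (j : ℕ) : ‖D.a j‖ ≤ 2 := by
  unfold a
  refine (norm_add_le _ _).trans ?_
  linarith [norm_uv_le (D.P (j + 2) - D.P j), norm_uv_le (D.P (j + 2) - D.P (j + 1))]

lemma a_rot (j : ℕ) : tau j / 4 ≤ ⟪D.a j, D.T (j + 2)⟫ := by
  have t1 := tau_succ j
  have t2 : tau (j + 2) = tau (j + 1) / 100 := tau_succ (j + 1)
  have t0 := tau_pos j
  have t3 := tau_le j
  have hT := D.nT (j + 2)
  have hz : ⟪uv (D.V (j + 2) - D.V j) + uv (D.V (j + 1 + 1) - D.V (j + 1)), D.T (j + 2)⟫ = 0 := by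
    rw [D.uv_e2, D.uv_e1, D.bis, real_inner_smul_left, D.orth, mul_zero]
  have e1 : D.P (j + 2) - D.P j = (D.V (j + 2) - D.V j) + (D.h (j + 2) - D.h j) := by
    unfold P; abel
  have e2 : D.P (j + 2) - D.P (j + 1)
      = (D.V (j + 1 + 1) - D.V (j + 1)) + (D.h (j + 2) - D.h (j + 1)) := by
    unfold P; abel
  have k1 := (norm_sub_le _ _).trans (add_le_add (D.norm_h (j + 2)) (D.norm_h j))
  have k2 := (norm_sub_le _ _).trans (add_le_add (D.norm_h (j + 2)) (D.norm_h (j + 1)))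
  have hd : 1 ≤ ‖D.V (j + 2) - D.V j‖ := by rw [D.norm_e2]; linarith [D.d2l j]
  have hd' : 1 ≤ ‖D.V (j + 1 + 1) - D.V (j + 1)‖ := by rw [D.norm_e1]; linarith [D.d1l (j + 1)]
  have h1 := inner_uv_add_ge hd (D.h (j + 2) - D.h j) (D.T (j + 2)) hT.le
  have h2 := norm_uv_sub_le hd' (D.h (j + 2) - D.h (j + 1))
  rw [← e1] at h1
  rw [← e2] at h2
  have h3 : |⟪uv (D.P (j + 2) - D.P (j + 1)) - uv (D.V (j + 1 + 1) - D.V (j + 1)), D.T (j + 2)⟫|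
      ≤ ‖uv (D.P (j + 2) - D.P (j + 1)) - uv (D.V (j + 1 + 1) - D.V (j + 1))‖ * ‖D.T (j + 2)‖ :=
    abs_real_inner_le_norm _ _
  rw [hT, mul_one] at h3
  have h4 := (abs_le.mp h3).1
  -- main term
  set k : E := D.h (j + 2) + (100 * tau j ^ 2) • D.N j with hk
  have e3 : D.h (j + 2) - D.h j = k - tau j • D.T j := by
    rw [hk]; unfold h; abel
  have nk : ‖k‖ ≤ tau j / 50 := by
    rw [hk]
    refine (norm_add_le _ _).trans ?_
    rw [norm_smul, D.nN, Real.norm_of_nonneg (by positivity)]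
    have := D.norm_h (j + 2)
    nlinarith
  rw [D.uv_e2, D.norm_e2] at h1
  have m1 : |⟪k, D.T (j + 2)⟫| ≤ tau j / 50 := by
    have := abs_real_inner_le_norm k (D.T (j + 2))
    rw [hT] at this; linarith
  have m2 : |⟪D.U2 j, k⟫| ≤ tau j / 50 := by
    have := abs_real_inner_le_norm (D.U2 j) k
    rw [D.nU2] at this; linarith
  have m3 : |⟪D.U2 j, D.T (j + 2)⟫| ≤ 1 := by
    have := abs_real_inner_le_norm (D.U2 j) (D.T (j + 2))
    rw [D.nU2, hT] at this; linarith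
  have m4 : |⟪D.U2 j, k⟫ * ⟪D.U2 j, D.T (j + 2)⟫| ≤ tau j / 50 := by
    rw [abs_mul]
    have := mul_le_mul m2 m3 (abs_nonneg _) (by positivity)
    linarith
  have hrot := D.rot j
  have hd2 := D.d2l j
  have main : D.d2 j * (9 / 25 * tau j) ≤ ⟪D.h (j + 2) - D.h j, D.T (j + 2)⟫
      - ⟪D.U2 j, D.h (j + 2) - D.h j⟫ * ⟪D.U2 j, D.T (j + 2)⟫ := by
    rw [e3, inner_sub_left, inner_sub_right, real_inner_smul_left, real_inner_smul_right]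
    have := (abs_le.mp m1).1
    have := (abs_le.mp m4).2
    have h7 : tau j * (2 / 5 * D.d2 j) ≤ tau j * -(⟪D.T j, D.T (j + 2)⟫
      - ⟪D.U2 j, D.T j⟫ * ⟪D.U2 j, D.T (j + 2)⟫) := mul_le_mul_of_nonneg_left hrot t0.le
    nlinarith
  have main2 : 9 / 25 * tau j ≤ (D.d2 j)⁻¹ * (⟪D.h (j + 2) - D.h j, D.T (j + 2)⟫
      - ⟪D.U2 j, D.h (j + 2) - D.h j⟫ * ⟪D.U2 j, D.T (j + 2)⟫) := by
    rw [inv_mul_eq_div, le_div_iff₀ (by linarith)]
    linarith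
  have sq1 : ‖D.h (j + 2) - D.h j‖ ^ 2 ≤ (3 * tau j) ^ 2 :=
    pow_le_pow_left₀ (norm_nonneg _) (by linarith) 2
  rw [inner_add_left, D.uv_e2] at hz
  rw [inner_sub_left (uv (D.P (j + 2) - D.P j))] at h1
  rw [inner_sub_left] at h4
  unfold a
  rw [inner_add_left]
  have h9 : 3 * (3 * tau j) ^ 2 ≤ tau j / 100 := by nlinarith
  linarith

end Data

end Pool.Agent.Lib.MP_26b77b_gt
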