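import Mathlib

set_option autoImplicit false

namespace Pool.Agent.Lib.MP_26b77b_gt

open scoped RealInnerProductSpace

variable {E : Type*} [NormedAddCommGroup E] [InnerProductSpace ℝ E]

/-- unit vector in the direction of `a` -/
noncomputable def uv (a : E) : E := ‖a‖⁻¹ • a

lemma norm_uv {a : E} (ha : a ≠ 0) : ‖uv a‖ = 1 := by
  have h : ‖a‖ ≠ 0 := norm_ne_zero_iff.mpr ha
  rw [uv, norm_smul, norm_inv, norm_norm, inv_mul_cancel₀ h]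

lemma norm_uv_le (a : E) : ‖uv a‖ ≤ 1 := by
  by_cases ha : a = 0
  · simp [uv, ha]
  · exact (norm_uv ha).le

lemma smul_uv (a : E) : ‖a‖ • uv a = a := by
  by_cases ha : a = 0
  · simp [uv, ha]
  · have h : ‖a‖ ≠ 0 := norm_ne_zero_iff.mpr ha
    rw [uv, smul_smul, mul_inv_cancel₀ h, one_smul]

lemma inner_uv_self (a : E) : ⟪uv a, a⟫ = ‖a‖ := by
  by_cases ha : a = 0
  · simp [uv, ha]
  · have h : ‖a‖ ≠ 0 := norm_ne_zero_iff.mpr ha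
    rw [uv, real_inner_smul_left, real_inner_self_eq_norm_sq]
    field_simp

lemma uv_smul {U : E} (hU : ‖U‖ = 1) {d : ℝ} (hd : 0 < d) : uv (d • U) = U := by
  rw [uv, norm_smul, hU, mul_one, Real.norm_of_nonneg hd.le, smul_smul, inv_mul_cancel₀ hd.ne',
    one_smul]

lemma norm_smul_unit {U : E} (hU : ‖U‖ = 1) {d : ℝ} (hd : 0 < d) : ‖d • U‖ = d := by
  rw [norm_smul, hU, mul_one, Real.norm_of_nonneg hd.le]

lemma uv_neg (a : E) : uv (-a) = - uv a := by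
  simp [uv]

/-- convexity lower bound -/
lemma norm_add_ge (b w : E) : ‖b‖ + ⟪uv b, w⟫ ≤ ‖b + w‖ := by
  have h1 : ⟪uv b, b + w⟫ ≤ ‖uv b‖ * ‖b + w‖ := real_inner_le_norm _ _
  rw [inner_add_right, inner_uv_self] at h1
  have h2 := norm_uv_le b
  have h3 := norm_nonneg (b + w)
  nlinarith

/-- quadratic upper bound -/
lemma norm_add_le_quad {b : E} (hb : 1 ≤ ‖b‖) (w : E) :
    ‖b + w‖ ≤ ‖b‖ + ⟪uv b, w⟫ + ‖w‖ ^ 2 / 2 := by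
  have h1 : ‖b + w‖ ^ 2 = ‖b‖ ^ 2 + 2 * ⟪b, w⟫ + ‖w‖ ^ 2 := norm_add_sq_real b w
  have h2 : ⟪b, w⟫ = ‖b‖ * ⟪uv b, w⟫ := by
    conv_lhs => rw [← smul_uv b]
    rw [real_inner_smul_left]
  have h3 : 0 < ‖b‖ := by linarith
  have h4 : ‖b‖ * ‖b + w‖ ≤ ‖b‖ * (‖b‖ + ⟪uv b, w⟫ + ‖w‖ ^ 2 / 2) := by
    have : 0 ≤ (‖b + w‖ - ‖b‖) ^ 2 := sq_nonneg _
    have h5 : ‖w‖ ^ 2 ≤ ‖b‖ * ‖w‖ ^ 2 := by nlinarith [sq_nonneg ‖w‖]
    nlinarith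
  exact le_of_mul_le_mul_left h4 h3

lemma uv_add_sub {a : E} (ha : 1 ≤ ‖a‖) (h : E) :
    uv (a + h) - uv a = ‖a‖⁻¹ • (h - (‖a + h‖ - ‖a‖) • uv (a + h)) := by
  have h0 : ‖a‖ ≠ 0 := by linarith
  have e : (‖a + h‖ - ‖a‖) • uv (a + h) = (a + h) - ‖a‖ • uv (a + h) := by
    rw [sub_smul, smul_uv]
  rw [e]
  have e2 : h - (a + h - ‖a‖ • uv (a + h)) = ‖a‖ • uv (a + h) - a := by abel
  rw [e2, smul_sub, smul_smul, inv_mul_cancel₀ h0, one_smul]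
  rfl

/-- Lipschitz bound for the unit vector -/
lemma norm_uv_sub_le {a : E} (ha : 1 ≤ ‖a‖) (h : E) : ‖uv (a + h) - uv a‖ ≤ 2 * ‖h‖ := by
  rw [uv_add_sub ha, norm_smul, norm_inv, norm_norm]
  have h1 : ‖h - (‖a + h‖ - ‖a‖) • uv (a + h)‖ ≤ 2 * ‖h‖ := by
    refine (norm_sub_le _ _).trans ?_
    rw [norm_smul, Real.norm_eq_abs]
    have h2 : |‖a + h‖ - ‖a‖| ≤ ‖h‖ := by
      have := abs_norm_sub_norm_le (a + h) a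
      simpa using this
    have h3 := norm_uv_le (a + h)
    have h4 := abs_nonneg (‖a + h‖ - ‖a‖)
    nlinarith [norm_nonneg h, norm_nonneg (uv (a + h))]
  have h5 : ‖a‖⁻¹ ≤ 1 := inv_le_one_of_one_le₀ ha
  have h6 : 0 ≤ ‖a‖⁻¹ := by positivity
  nlinarith [norm_nonneg (h - (‖a + h‖ - ‖a‖) • uv (a + h)), norm_nonneg h]

lemma norm_uv_sub_le' {a b : E} (ha : 1 ≤ ‖a‖) : ‖uv b - uv a‖ ≤ 2 * ‖b - a‖ := by
  have := norm_uv_sub_le ha (b - a)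
  simpa using this

/-- first order expansion of the unit vector, tested against a vector of norm at most one -/
lemma inner_uv_add_ge {a : E} (ha : 1 ≤ ‖a‖) (h t : E) (ht : ‖t‖ ≤ 1) :
    ‖a‖⁻¹ * (⟪h, t⟫ - ⟪uv a, h⟫ * ⟪uv a, t⟫) - 3 * ‖h‖ ^ 2 ≤ ⟪uv (a + h) - uv a, t⟫ := by
  have hL := norm_uv_sub_le ha h
  rw [uv_add_sub ha, real_inner_smul_left, inner_sub_left, real_inner_smul_left]
  set e := ‖a + h‖ - ‖a‖ - ⟪uv a, h⟫ with he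
  have e0 : 0 ≤ e := by have := norm_add_ge a h; linarith
  have e1 : e ≤ ‖h‖ ^ 2 / 2 := by have := norm_add_le_quad ha h; linarith
  have h5 : ‖a‖⁻¹ ≤ 1 := inv_le_one_of_one_le₀ ha
  have h6 : 0 ≤ ‖a‖⁻¹ := by positivity
  have k1 : |⟪uv a, h⟫| ≤ ‖h‖ := by
    have := abs_real_inner_le_norm (uv a) h
    nlinarith [norm_uv_le a, norm_nonneg h, norm_nonneg (uv a)]
  have k2 : |⟪uv (a + h), t⟫ - ⟪uv a, t⟫| ≤ 2 * ‖h‖ := by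
    rw [← inner_sub_left]
    have := abs_real_inner_le_norm (uv (a + h) - uv a) t
    nlinarith [norm_nonneg h, norm_nonneg (uv (a + h) - uv a), norm_nonneg t]
  have k3 : |⟪uv (a + h), t⟫| ≤ 1 := by
    have := abs_real_inner_le_norm (uv (a + h)) t
    nlinarith [norm_uv_le (a + h), norm_nonneg (uv (a + h)), norm_nonneg t]
  have e2 : ‖a + h‖ - ‖a‖ = ⟪uv a, h⟫ + e := by rw [he]; ring
  rw [e2]
  have k4 : |⟪uv a, h⟫ * (⟪uv (a + h), t⟫ - ⟪uv a, t⟫)| ≤ 2 * ‖h‖ ^ 2 := by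
    rw [abs_mul]
    have := mul_le_mul k1 k2 (abs_nonneg _) (norm_nonneg _)
    nlinarith
  have k5 : |e * ⟪uv (a + h), t⟫| ≤ ‖h‖ ^ 2 / 2 := by
    rw [abs_mul, abs_of_nonneg e0]
    nlinarith [abs_nonneg ⟪uv (a + h), t⟫]
  have k6 : |⟪uv a, h⟫ * (⟪uv (a + h), t⟫ - ⟪uv a, t⟫) + e * ⟪uv (a + h), t⟫| ≤ 3 * ‖h‖ ^ 2 := by
    refine (abs_add_le _ _).trans ?_
    nlinarith [sq_nonneg ‖h‖]
  have k7 := (abs_le.mp k6).2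
  have k8 : ‖a‖⁻¹ * (⟪uv a, h⟫ * (⟪uv (a + h), t⟫ - ⟪uv a, t⟫) + e * ⟪uv (a + h), t⟫)
      ≤ 3 * ‖h‖ ^ 2 := by
    have := (abs_le.mp k6).1
    nlinarith [sq_nonneg ‖h‖]
  nlinarith

/-- estimate on a small disc touching `P` with unit normal `n` -/
lemma disc_bound {g n w : E} {r δ : ℝ} (hr : 0 < r) (hr' : r ≤ 1 / 16) (hg1 : 1 ≤ ‖g‖)
    (hg2 : ‖g‖ ≤ 2) (hδ : ‖uv g - n‖ ≤ δ) (hw : ‖w‖ ^ 2 + 2 * r * ⟪n, w⟫ ≤ 0) :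
    ⟪g, w⟫ + 4 * ‖w‖ ^ 2 ≤ 4 * r * δ ^ 2 := by
  have h1 : ⟪g, w⟫ = ‖g‖ * (⟪n, w⟫ + ⟪uv g - n, w⟫) := by
    conv_lhs => rw [← smul_uv g]
    rw [real_inner_smul_left, inner_sub_left]; ring
  have h2 : ⟪uv g - n, w⟫ ≤ δ * ‖w‖ := by
    have := real_inner_le_norm (uv g - n) w
    nlinarith [norm_nonneg w]
  have hδ0 : 0 ≤ δ := (norm_nonneg _).trans hδ
  have hn : ⟪n, w⟫ ≤ 0 := by
    by_contra hc
    push Not at hc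
    nlinarith [sq_nonneg ‖w‖, mul_pos hr hc]
  have h3 : ⟪g, w⟫ ≤ ⟪n, w⟫ + 2 * (δ * ‖w‖) := by
    rw [h1]
    have h4 : 0 ≤ δ * ‖w‖ := mul_nonneg hδ0 (norm_nonneg _)
    nlinarith
  have h5 : r * (⟪g, w⟫ + 4 * ‖w‖ ^ 2) ≤ r * (4 * r * δ ^ 2) := by
    have h6 : r * ⟪g, w⟫ ≤ r * (⟪n, w⟫ + 2 * (δ * ‖w‖)) := mul_le_mul_of_nonneg_left h3 hr.le
    have h7 : r * ‖w‖ ^ 2 ≤ ‖w‖ ^ 2 / 16 := by nlinarith [sq_nonneg ‖w‖]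
    nlinarith [sq_nonneg (‖w‖ / 2 - 2 * r * δ)]
  exact le_of_mul_le_mul_left h5 hr

end Pool.Agent.Lib.MP_26b77b_gt
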